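import Pool.Agent.U955.TD.Stm

set_option autoImplicit false

/-! Project TD, package OP: orthogonal polynomials of a discrete measure. -/

open Finset Polynomial

namespace Pool.Agent.U682.TD

variable {N : ℕ}

/-- the scalar product -/
def ip (r u v : Fin N → ℝ) : ℝ := ∑ j, r j * (u j * v j)

/-- two consecutive functions -/
noncomputable def st (t r : Fin N → ℝ) (a : ℝ) : ℕ → (Fin N → ℝ) × (Fin N → ℝ)
  | 0 => (fun _ => 1, fun j => t j - a)
  | s + 1 => ((st t r a s).2, fun j =>
      (t j - ip r (st t r a s).2 (fun i => t i * (st t r a s).2 i) /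
        ip r (st t r a s).2 (st t r a s).2) * (st t r a s).2 j -
      ip r (st t r a s).2 (st t r a s).2 / ip r (st t r a s).1 (st t r a s).1 * (st t r a s).1 j)

noncomputable def ff (t r : Fin N → ℝ) (a : ℝ) (s : ℕ) : Fin N → ℝ := (st t r a s).1

noncomputable def aa (t r : Fin N → ℝ) (a : ℝ) (s : ℕ) : ℝ :=
  ip r (ff t r a s) (fun i => t i * ff t r a s i) / ip r (ff t r a s) (ff t r a s)

noncomputable def gg (t r : Fin N → ℝ) (a : ℝ) (s : ℕ) : ℝ :=
  ip r (ff t r a s) (ff t r a s) / ip r (ff t r a (s - 1)) (ff t r a (s - 1))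

variable (t r : Fin N → ℝ) (a : ℝ)

theorem ff_zero (j : Fin N) : ff t r a 0 j = 1 := rfl

theorem ff_one (j : Fin N) : ff t r a 1 j = t j - a := rfl

theorem ff_two (s : ℕ) (j : Fin N) : ff t r a (s + 2) j =
    (t j - aa t r a (s + 1)) * ff t r a (s + 1) j - gg t r a (s + 1) * ff t r a s j := rfl

theorem ip_comm (u v : Fin N → ℝ) : ip r u v = ip r v u := by
  unfold ip
  exact sum_congr rfl fun j _ => by ring

theorem ip_pos (hr : ∀ j, 0 < r j) (u : Fin N → ℝ) (hu : u ≠ 0) : 0 < ip r u u := by
  unfold ip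
  obtain ⟨i, hi⟩ := Function.ne_iff.1 hu
  refine sum_pos' (fun j _ => mul_nonneg (hr j).le (mul_self_nonneg _)) ⟨i, mem_univ _, ?_⟩
  exact mul_pos (hr i) (mul_self_pos.2 hi)

theorem ip_two (s : ℕ) (g : Fin N → ℝ) : ip r (ff t r a (s + 2)) g =
    ip r (ff t r a (s + 1)) (fun i => t i * g i) - aa t r a (s + 1) * ip r (ff t r a (s + 1)) g -
      gg t r a (s + 1) * ip r (ff t r a s) g := by
  unfold ip
  rw [mul_sum, mul_sum, ← sum_sub_distrib, ← sum_sub_distrib]
  refine sum_congr rfl fun j _ => ?_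
  rw [ff_two]
  ring

theorem ip_T (i : ℕ) : ∃ A B : ℝ, ∀ g : Fin N → ℝ, ip r g (fun k => t k * ff t r a i k) =
    ip r g (ff t r a (i + 1)) + A * ip r g (ff t r a i) + B * ip r g (ff t r a (i - 1)) := by
  cases i with
  | zero =>
    refine ⟨a, 0, fun g => ?_⟩
    unfold ip
    rw [mul_sum, mul_sum, ← sum_add_distrib, ← sum_add_distrib]
    refine sum_congr rfl fun j _ => ?_
    simp only [ff_zero, zero_add, ff_one]
    ring
  | succ i =>
    refine ⟨aa t r a (i + 1), gg t r a (i + 1), fun g => ?_⟩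
    unfold ip
    rw [mul_sum, mul_sum, ← sum_add_distrib, ← sum_add_distrib]
    refine sum_congr rfl fun j _ => ?_
    rw [Nat.add_sub_cancel, ff_two]
    ring

theorem exists_poly (s : ℕ) : (∃ P : ℝ[X], P.Monic ∧ P.natDegree = s ∧
      ∀ j, ff t r a s j = P.eval (t j)) ∧
    ∃ P : ℝ[X], P.Monic ∧ P.natDegree = s + 1 ∧ ∀ j, ff t r a (s + 1) j = P.eval (t j) := by
  induction s with
  | zero =>
    refine ⟨⟨1, monic_one, natDegree_one, fun j => ?_⟩, ⟨X - C a, monic_X_sub_C a,
      natDegree_X_sub_C a, fun j => ?_⟩⟩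
    · rw [ff_zero, eval_one]
    · rw [zero_add, ff_one, eval_sub, eval_X, eval_C]
  | succ s ih =>
    obtain ⟨⟨P0, m0, d0, e0⟩, ⟨P1, m1, d1, e1⟩⟩ := ih
    refine ⟨⟨P1, m1, d1, e1⟩, ?_⟩
    have hm : ((X - C (aa t r a (s + 1))) * P1).Monic := (monic_X_sub_C _).mul m1
    have hd : ((X - C (aa t r a (s + 1))) * P1).natDegree = s + 2 := by
      rw [(monic_X_sub_C _).natDegree_mul m1, natDegree_X_sub_C, d1]
      omega
    have hlt : (C (gg t r a (s + 1)) * P0).natDegree <
        ((X - C (aa t r a (s + 1))) * P1).natDegree := by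
      rw [hd]
      have := natDegree_C_mul_le (gg t r a (s + 1)) P0
      omega
    refine ⟨(X - C (aa t r a (s + 1))) * P1 - C (gg t r a (s + 1)) * P0,
      hm.sub_of_left (degree_lt_degree hlt), ?_, fun j => ?_⟩
    · rw [natDegree_sub_eq_left_of_natDegree_lt hlt, hd]
    · rw [ff_two, e0, e1]
      simp

theorem ff_ne (ht : Function.Injective t) {s : ℕ} (hs : s < N) : ff t r a s ≠ 0 := by
  intro h
  obtain ⟨⟨P, hm, hd, he⟩, -⟩ := exists_poly t r a s
  have h0 : P = 0 := by
    refine eq_zero_of_natDegree_lt_card_of_eval_eq_zero P ht (fun j => ?_) ?_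
    · rw [← he, h]
      rfl
    · rw [hd, Fintype.card_fin]
      exact hs
  exact hm.ne_zero h0

theorem ortho (ht : Function.Injective t) (hr : ∀ j, 0 < r j) (ha : ∑ j, r j * (t j - a) = 0)
    (s : ℕ) : s ≤ N → ∀ i j, i < j → j ≤ s → ip r (ff t r a j) (ff t r a i) = 0 := by
  induction s using Nat.twoStepInduction with
  | zero =>
    intro _ i j hij hj
    omega
  | one =>
    intro _ i j hij hj
    obtain rfl : i = 0 := by omega
    obtain rfl : j = 1 := by omega
    unfold ip
    rw [← ha]
    refine sum_congr rfl fun j _ => ?_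
    rw [ff_zero, ff_one, mul_one]
  | more s _ ih =>
    intro hs i j hij hj
    have ih' := ih (by omega)
    rcases Nat.lt_or_ge j (s + 2) with hlt | hge
    · exact ih' i j hij (by omega)
    obtain rfl : j = s + 2 := by omega
    rw [ip_two]
    obtain ⟨A, B, hT⟩ := ip_T t r a i
    rcases Nat.lt_or_ge i (s + 1) with h1 | h1
    · rcases Nat.lt_or_ge i s with h2 | h2
      · rw [hT, ih' (i + 1) (s + 1) (by omega) le_rfl, ih' i (s + 1) (by omega) le_rfl,
          ih' (i - 1) (s + 1) (by omega) le_rfl, ih' i s h2 (by omega)]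
        ring
      · obtain rfl : i = s := by omega
        have hpos := ip_pos r hr _ (ff_ne t r a ht (show i < N by omega))
        rw [hT, ih' i (i + 1) (by omega) le_rfl, ih' (i - 1) (i + 1) (by omega) le_rfl]
        have hg : gg t r a (i + 1) * ip r (ff t r a i) (ff t r a i) =
            ip r (ff t r a (i + 1)) (ff t r a (i + 1)) := by
          unfold gg
          rw [Nat.add_sub_cancel]
          exact div_mul_cancel₀ _ hpos.ne'
        rw [hg]
        ring
    · obtain rfl : i = s + 1 := by omega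
      have hpos := ip_pos r hr _ (ff_ne t r a ht (show s + 1 < N by omega))
      have hg : aa t r a (s + 1) * ip r (ff t r a (s + 1)) (ff t r a (s + 1)) =
          ip r (ff t r a (s + 1)) (fun i => t i * ff t r a (s + 1) i) := by
        unfold aa
        exact div_mul_cancel₀ _ hpos.ne'
      rw [hg, ip_comm r (ff t r a s), ih' s (s + 1) (by omega) le_rfl]
      ring

theorem ff_N (ht : Function.Injective t) (hr : ∀ j, 0 < r j) (ha : ∑ j, r j * (t j - a) = 0) :
    ff t r a N = 0 := by
  by_contra hne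
  have hne' : ∀ i : Fin (N + 1), ff t r a i ≠ 0 := by
    intro i
    rcases Nat.lt_or_ge (i : ℕ) N with h | h
    · exact ff_ne t r a ht h
    · have : (i : ℕ) = N := by omega
      rw [this]
      exact hne
  have hort : ∀ i k : Fin (N + 1), i ≠ k → ip r (ff t r a i) (ff t r a k) = 0 := by
    intro i k hik
    rcases lt_or_gt_of_ne hik with h | h
    · rw [ip_comm]
      exact ortho t r a ht hr ha N le_rfl i k h (by omega)
    · exact ortho t r a ht hr ha N le_rfl k i h (by omega)
  have hli : LinearIndependent ℝ (fun i : Fin (N + 1) => ff t r a i) := by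
    rw [Fintype.linearIndependent_iff]
    intro g hg k
    have h1 : ∑ i, g i * ip r (ff t r a i) (ff t r a k) = 0 := by
      have h2 : ∑ i, g i * ip r (ff t r a i) (ff t r a k) =
          ∑ j, r j * ((∑ i : Fin (N + 1), g i • ff t r a i) j * ff t r a k j) := by
        unfold ip
        simp only [mul_sum, Finset.sum_apply, Pi.smul_apply, smul_eq_mul, sum_mul]
        rw [sum_comm]
        refine sum_congr rfl fun j _ => sum_congr rfl fun i _ => ?_
        ring
      rw [h2, hg]
      simp
    rw [sum_eq_single k (fun i _ hik => by rw [hort i k hik, mul_zero])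
      (fun h => absurd (mem_univ _) h)] at h1
    rcases mul_eq_zero.1 h1 with h | h
    · exact h
    · exact absurd h (ip_pos r hr _ (hne' k)).ne'
  have := hli.fintype_card_le_finrank
  simp at this

theorem ff_zero_of (s : ℕ) (hs : 1 ≤ s) (h : ff t r a s = 0) : ff t r a (s + 1) = 0 := by
  obtain ⟨s, rfl⟩ : ∃ s', s = s' + 1 := ⟨s - 1, by omega⟩
  funext j
  have hg : gg t r a (s + 1) = 0 := by
    unfold gg
    rw [h]
    simp [ip]
  rw [show s + 1 + 1 = s + 2 from rfl, ff_two, h, hg]
  simp

theorem t_OP : Pool.Agent.U955.TD.S_OP := by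
  intro N t r hN ht hr a ha
  have hN0 := ff_N t r a ht hr ha
  have hbig : ∀ m, ff t r a (N + m) = 0 := by
    intro m
    induction m with
    | zero => exact hN0
    | succ m ih => exact ff_zero_of t r a (N + m) (by omega) ih
  refine ⟨aa t r a, gg t r a, ff t r a, ?_, ff_zero t r a, ff_one t r a, ff_two t r a, ?_, ?_⟩
  · intro s hs1 hs
    exact div_pos (ip_pos r hr _ (ff_ne t r a ht hs)) (ip_pos r hr _ (ff_ne t r a ht (by omega)))
  · intro j
    rw [hN0]
    rfl
  · intro s hs
    rcases Nat.lt_or_ge s N with h | h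
    · have h1 := ortho t r a ht hr ha N le_rfl 0 s (by omega) h.le
      rw [← h1]
      unfold ip
      refine sum_congr rfl fun j _ => ?_
      rw [ff_zero, mul_one]
    · obtain ⟨m, rfl⟩ := Nat.exists_eq_add_of_le h
      rw [hbig m]
      simp

end Pool.Agent.U682.TD
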